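import Pool.Graph.R_seed8.Results.MP_adbdc7_gt.NotRankOneCyclicCentraliser

/-!
# Every geodesic line of the product of two hyperbolic planes lies in a flat plane
-/

set_option autoImplicit false

namespace Pool.Agent.KS6_11.RkTwo

open UpperHalfPlane

/-- Through every point of the hyperbolic plane there is a geodesic line. -/
theorem exists_geod (p : ℍ) :
    ∃ c : ℝ → ℍ, c 0 = p ∧ ∀ s t, dist (c s) (c t) = |s - t| := by
  have him : ∀ t : ℝ, 0 < (⟨p.re, p.im * Real.exp t⟩ : ℂ).im := fun t =>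
    mul_pos p.im_pos (Real.exp_pos t)
  refine ⟨fun t => UpperHalfPlane.mk ⟨p.re, p.im * Real.exp t⟩ (him t), ?_, ?_⟩
  · have h : UpperHalfPlane.mk ⟨p.re, p.im * Real.exp 0⟩ (him 0) = p := by
      apply UpperHalfPlane.ext
      apply Complex.ext
      · rfl
      · change p.im * Real.exp 0 = p.im
        rw [Real.exp_zero, mul_one]
    exact h
  · intro s t
    rw [UpperHalfPlane.dist_of_re_eq (by simp)]
    have h : ∀ r : ℝ, Real.log (UpperHalfPlane.mk ⟨p.re, p.im * Real.exp r⟩ (him r)).im =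
        Real.log p.im + r := by
      intro r
      have h1 : (UpperHalfPlane.mk ⟨p.re, p.im * Real.exp r⟩ (him r)).im = p.im * Real.exp r := rfl
      rw [h1, Real.log_mul p.im_pos.ne' (Real.exp_pos r).ne', Real.log_exp]
    rw [h, h, Real.dist_eq]
    congr 1
    ring

/-- The distance of the product. -/
theorem dist_prod (x y : WithLp 2 (ℍ × ℍ)) :
    dist x y = √(dist x.fst y.fst ^ 2 + dist x.snd y.snd ^ 2) :=
  R785.RO.dist_HH x y

/-- The components of a geodesic line of a Euclidean product have constant speeds. -/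
theorem speeds (d1 d2 : ℝ → ℝ → ℝ) (h1 : ∀ s t, 0 ≤ d1 s t) (h2 : ∀ s t, 0 ≤ d2 s t)
    (c1 : ∀ s t, d1 s t = d1 t s) (c2 : ∀ s t, d2 s t = d2 t s)
    (t1 : ∀ s t u, d1 s u ≤ d1 s t + d1 t u) (t2 : ∀ s t u, d2 s u ≤ d2 s t + d2 t u)
    (hd : ∀ s t, d1 s t ^ 2 + d2 s t ^ 2 = (s - t) ^ 2) :
    ∃ a b : ℝ, 0 ≤ a ∧ 0 ≤ b ∧ a ^ 2 + b ^ 2 = 1 ∧ (∀ s t, d1 s t = a * |s - t|) ∧
      ∀ s t, d2 s t = b * |s - t| := by
  have key : ∀ s t u : ℝ, s < t → t < u →
      (d1 s t * (u - s) = d1 s u * (t - s) ∧ d1 t u * (u - s) = d1 s u * (u - t)) ∧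
      (d2 s t * (u - s) = d2 s u * (t - s) ∧ d2 t u * (u - s) = d2 s u * (u - t)) := by
    intro s t u hst htu
    have e1 := hd s t
    have e2 := hd t u
    have e3 := hd s u
    have i1 := t1 s t u
    have i2 := t2 s t u
    have hp : 0 < t - s := by linarith
    have hq : 0 < u - t := by linarith
    -- Cauchy-Schwarz
    have cs : (d1 s t * d1 t u + d2 s t * d2 t u) ≤ (t - s) * (u - t) := by
      have h3 : (d1 s t * d1 t u + d2 s t * d2 t u) ^ 2 ≤ ((t - s) * (u - t)) ^ 2 := by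
        have h4 : ((t - s) * (u - t)) ^ 2 = (d1 s t ^ 2 + d2 s t ^ 2) * (d1 t u ^ 2 + d2 t u ^ 2) := by
          rw [e1, e2]
          ring
        rw [h4]
        nlinarith [sq_nonneg (d1 s t * d2 t u - d2 s t * d1 t u)]
      exact le_of_sq_le_sq h3 (by positivity)
    have z1 : d1 s u ^ 2 ≤ (d1 s t + d1 t u) ^ 2 := by
      have := h1 s u
      nlinarith [h1 s t, h1 t u]
    have z2 : d2 s u ^ 2 ≤ (d2 s t + d2 t u) ^ 2 := by
      have := h2 s u
      nlinarith [h2 s t, h2 t u]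
    have hsum : d1 s t * d1 t u + d2 s t * d2 t u = (t - s) * (u - t) := by
      apply le_antisymm cs
      nlinarith
    have y1 : d1 s u = d1 s t + d1 t u := by
      have : d1 s u ^ 2 = (d1 s t + d1 t u) ^ 2 := by
        apply le_antisymm z1
        nlinarith
      exact (sq_eq_sq₀ (h1 _ _) (add_nonneg (h1 _ _) (h1 _ _))).1 this
    have y2 : d2 s u = d2 s t + d2 t u := by
      have : d2 s u ^ 2 = (d2 s t + d2 t u) ^ 2 := by
        apply le_antisymm z2
        nlinarith
      exact (sq_eq_sq₀ (h2 _ _) (add_nonneg (h2 _ _) (h2 _ _))).1 this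
    have w : (d1 s t * (u - t) - d1 t u * (t - s)) ^ 2 +
        (d2 s t * (u - t) - d2 t u * (t - s)) ^ 2 = 0 := by
      have e1' : d1 s t ^ 2 + d2 s t ^ 2 = (t - s) ^ 2 := by rw [e1]; ring
      have e2' : d1 t u ^ 2 + d2 t u ^ 2 = (u - t) ^ 2 := by rw [e2]; ring
      have : (d1 s t * (u - t) - d1 t u * (t - s)) ^ 2 +
        (d2 s t * (u - t) - d2 t u * (t - s)) ^ 2 =
        (d1 s t ^ 2 + d2 s t ^ 2) * (u - t) ^ 2 + (d1 t u ^ 2 + d2 t u ^ 2) * (t - s) ^ 2 -
        2 * (u - t) * (t - s) * (d1 s t * d1 t u + d2 s t * d2 t u) := by ring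
      rw [this, e1', e2', hsum]
      ring
    have w1 : d1 s t * (u - t) - d1 t u * (t - s) = 0 := by
      have := sq_nonneg (d2 s t * (u - t) - d2 t u * (t - s))
      have h5 : (d1 s t * (u - t) - d1 t u * (t - s)) ^ 2 ≤ 0 := by linarith
      exact pow_eq_zero_iff two_ne_zero |>.1 (le_antisymm h5 (sq_nonneg _))
    have w2 : d2 s t * (u - t) - d2 t u * (t - s) = 0 := by
      have := sq_nonneg (d1 s t * (u - t) - d1 t u * (t - s))
      have h5 : (d2 s t * (u - t) - d2 t u * (t - s)) ^ 2 ≤ 0 := by linarith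
      exact pow_eq_zero_iff two_ne_zero |>.1 (le_antisymm h5 (sq_nonneg _))
    refine ⟨⟨?_, ?_⟩, ?_, ?_⟩
    · rw [y1]; linarith
    · rw [y1]; linarith
    · rw [y2]; linarith
    · rw [y2]; linarith
  have ratio : ∀ (d : ℝ → ℝ → ℝ),
      (∀ s t u : ℝ, s < t → t < u →
        (d s t * (u - s) = d s u * (t - s) ∧ d t u * (u - s) = d s u * (u - t))) →
      ∀ s t : ℝ, s < t → d s t = d 0 1 * (t - s) := by
    intro d hk s t hst
    set m : ℝ := min s 0 - 1 with hm
    set M : ℝ := max t 1 + 1 with hM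
    have m1 : m < s := by have := min_le_left s 0; linarith
    have m2 : m < 0 := by have := min_le_right s 0; linarith
    have M1 : t < M := by have := le_max_left t 1; linarith
    have M2 : 1 < M := by have := le_max_right t 1; linarith
    have gen : ∀ x y : ℝ, m < x → x < y → y < M → d x y * (M - m) = d m M * (y - x) := by
      intro x y hx hxy hy
      have k1 := (hk m x y hx hxy).2
      have k2 := (hk m y M (hx.trans hxy) hy).1
      have hym : 0 < y - m := by linarith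
      have h3 : (d x y * (M - m)) * (y - m) = (d m M * (y - x)) * (y - m) := by
        calc (d x y * (M - m)) * (y - m) = (d x y * (y - m)) * (M - m) := by ring
          _ = (d m y * (y - x)) * (M - m) := by rw [k1]
          _ = (d m y * (M - m)) * (y - x) := by ring
          _ = (d m M * (y - m)) * (y - x) := by rw [k2]
          _ = (d m M * (y - x)) * (y - m) := by ring
      exact mul_right_cancel₀ hym.ne' h3
    have a1 := gen s t m1 hst M1
    have a2 := gen 0 1 m2 one_pos M2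
    have hMm : 0 < M - m := by linarith
    apply mul_right_cancel₀ hMm.ne'
    rw [a1]
    have : d 0 1 * (t - s) * (M - m) = (d 0 1 * (M - m)) * (t - s) := by ring
    rw [this, a2]
    ring
  have full : ∀ (d : ℝ → ℝ → ℝ), (∀ s t, d s t = d t s) → (∀ s, d s s = 0) →
      (∀ s t u : ℝ, s < t → t < u →
        (d s t * (u - s) = d s u * (t - s) ∧ d t u * (u - s) = d s u * (u - t))) →
      ∀ s t : ℝ, d s t = d 0 1 * |s - t| := by
    intro d hc h0 hk s t
    rcases lt_trichotomy s t with h | h | h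
    · rw [ratio d hk s t h, abs_of_neg (by linarith)]
      ring
    · rw [h, h0, sub_self, abs_zero, mul_zero]
    · rw [hc, ratio d hk t s h, abs_of_pos (by linarith)]
  have z1 : ∀ s, d1 s s = 0 := by
    intro s
    have := hd s s
    nlinarith [sq_nonneg (d1 s s), sq_nonneg (d2 s s)]
  have z2 : ∀ s, d2 s s = 0 := by
    intro s
    have := hd s s
    nlinarith [sq_nonneg (d1 s s), sq_nonneg (d2 s s)]
  refine ⟨d1 0 1, d2 0 1, h1 _ _, h2 _ _, ?_,
    full d1 c1 z1 (fun s t u hs ht => (key s t u hs ht).1),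
    full d2 c2 z2 (fun s t u hs ht => (key s t u hs ht).2)⟩
  have := hd 0 1
  norm_num at this
  exact this

/-- A curve of constant speed `a` in the hyperbolic plane is a reparametrised geodesic line. -/
theorem exists_line (a : ℝ) (ha : 0 ≤ a) (σ : ℝ → ℍ) (hσ : ∀ s t, dist (σ s) (σ t) = a * |s - t|) :
    ∃ c : ℝ → ℍ, (∀ x y, dist (c x) (c y) = |x - y|) ∧ ∀ s, c (a * s) = σ s := by
  rcases ha.eq_or_lt with h | h
  · obtain ⟨c, hc0, hc⟩ := exists_geod (σ 0)
    refine ⟨c, hc, fun s => ?_⟩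
    rw [← h, zero_mul, hc0]
    apply dist_eq_zero.1
    rw [hσ, ← h, zero_mul]
  · refine ⟨fun x => σ (x / a), fun x y => ?_, fun s => ?_⟩
    · rw [hσ, ← sub_div, abs_div, abs_of_pos h, mul_div_cancel₀ _ h.ne']
    · change σ (a * s / a) = σ s
      rw [mul_div_cancel_left₀ _ h.ne']

/-- Every geodesic line of the product of two hyperbolic planes lies in a flat plane. -/
theorem flat_plane (γ : ℝ → WithLp 2 (ℍ × ℍ)) (hγ : Isometry γ) :
    ∃ F : ℝ → ℝ → WithLp 2 (ℍ × ℍ), (∀ s, F s 0 = γ s) ∧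
      ∀ s t s' t' : ℝ, dist (F s t) (F s' t') = √((s - s') ^ 2 + (t - t') ^ 2) := by
  have hd : ∀ s t, dist (γ s).fst (γ t).fst ^ 2 + dist (γ s).snd (γ t).snd ^ 2 = (s - t) ^ 2 := by
    intro s t
    have h1 := hγ.dist_eq s t
    rw [dist_prod, Real.dist_eq] at h1
    have h2 : (√(dist (γ s).fst (γ t).fst ^ 2 + dist (γ s).snd (γ t).snd ^ 2)) ^ 2 =
      |s - t| ^ 2 := by rw [h1]
    rw [Real.sq_sqrt (by positivity), sq_abs] at h2
    exact h2
  obtain ⟨a, b, ha, hb, hab, e1, e2⟩ := speeds (fun s t => dist (γ s).fst (γ t).fst)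
    (fun s t => dist (γ s).snd (γ t).snd) (fun _ _ => dist_nonneg) (fun _ _ => dist_nonneg)
    (fun _ _ => dist_comm _ _) (fun _ _ => dist_comm _ _) (fun _ _ _ => dist_triangle _ _ _)
    (fun _ _ _ => dist_triangle _ _ _) hd
  obtain ⟨c1, i1, j1⟩ := exists_line a ha (fun s => (γ s).fst) e1
  obtain ⟨c2, i2, j2⟩ := exists_line b hb (fun s => (γ s).snd) e2
  refine ⟨fun s t => WithLp.toLp 2 (c1 (a * s - b * t), c2 (b * s + a * t)), ?_, ?_⟩
  · intro s
    have h1 : a * s - b * 0 = a * s := by ring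
    have h2 : b * s + a * 0 = b * s := by ring
    change WithLp.toLp 2 (c1 (a * s - b * 0), c2 (b * s + a * 0)) = γ s
    rw [h1, h2, j1, j2]
    rfl
  · intro s t s' t'
    change dist (WithLp.toLp 2 (c1 (a * s - b * t), c2 (b * s + a * t)))
      (WithLp.toLp 2 (c1 (a * s' - b * t'), c2 (b * s' + a * t'))) = _
    rw [dist_prod]
    congr 1
    have h1 : dist (c1 (a * s - b * t)) (c1 (a * s' - b * t')) ^ 2 =
        (a * (s - s') - b * (t - t')) ^ 2 := by
      rw [i1, sq_abs]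
      ring
    have h2 : dist (c2 (b * s + a * t)) (c2 (b * s' + a * t')) ^ 2 =
        (b * (s - s') + a * (t - t')) ^ 2 := by
      rw [i2, sq_abs]
      ring
    change dist (c1 (a * s - b * t)) (c1 (a * s' - b * t')) ^ 2 +
      dist (c2 (b * s + a * t)) (c2 (b * s' + a * t')) ^ 2 = _
    rw [h1, h2]
    have h3 : (a * (s - s') - b * (t - t')) ^ 2 + (b * (s - s') + a * (t - t')) ^ 2 =
      (a ^ 2 + b ^ 2) * ((s - s') ^ 2 + (t - t') ^ 2) := by ring
    rw [h3, hab, one_mul]

end Pool.Agent.KS6_11.RkTwo
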